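import Pool.Agent.Helper45.U4.St2

/-!
# Project U4, module UPP: a set of `35` points meeting every generator of `U(5,4)`
-/

set_option autoImplicit false

open Module Classical
open scoped LinearAlgebra.Projectivization

namespace Pool.Agent.Helper33.U4

open Pool.Agent.Helper45.U4 Pool.Agent.Helper53.PB

section
variable {F V : Type} [Field F] [AddCommGroup V] [Module F V]

theorem blk {ι1 ι2 : Type} (P : Polar F V) (S1 : Finset ι1) (S2 : Finset ι2) (w1 : ι1 → V) (w2 : ι2 → V)
    (n1 : ∀ i, w1 i ≠ 0) (n2 : ∀ i, w2 i ≠ 0) (s1 : ∀ i, P.sing (w1 i)) (s2 : ∀ i, P.sing (w2 i))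
    (h : ∀ U, P.Gen U → (∃ i ∈ S1, w1 i ∈ U) ∨ ∃ i ∈ S2, w2 i ∈ U) :
    ∃ T : Finset (ℙ F V), P.Block T ∧ T.card ≤ S1.card + S2.card := by
  have hs : ∀ (v : V) (hv : v ≠ 0), P.sing v → P.sing (Projectivization.mk F v hv).rep := by
    intro v hv hs
    obtain ⟨a, ha⟩ := Projectivization.exists_smul_eq_mk_rep F v hv
    rw [← ha, Units.smul_def]
    exact P.sing_smul _ _ hs
  refine ⟨S1.image (fun i => Projectivization.mk F (w1 i) (n1 i)) ∪
    S2.image (fun i => Projectivization.mk F (w2 i) (n2 i)), ⟨?_, ?_⟩, ?_⟩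
  · intro y hy
    rcases Finset.mem_union.1 hy with hy | hy
    · obtain ⟨i, -, rfl⟩ := Finset.mem_image.1 hy
      exact hs _ _ (s1 i)
    · obtain ⟨i, -, rfl⟩ := Finset.mem_image.1 hy
      exact hs _ _ (s2 i)
  · intro U hU
    rcases h U hU with ⟨i, hi, hiU⟩ | ⟨i, hi, hiU⟩
    · exact ⟨_, Finset.mem_union_left _ (Finset.mem_image_of_mem _ hi), (rep_mk_mem _).2 hiU⟩
    · exact ⟨_, Finset.mem_union_right _ (Finset.mem_image_of_mem _ hi), (rep_mk_mem _).2 hiU⟩
  · exact (Finset.card_union_le _ _).trans (add_le_add Finset.card_image_le Finset.card_image_le)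

/-- three vectors `x + b y`, `x + b z`, `y + b z` -/
def tri (x y z : V) (s : Fin 3) (b : F) : V := ![x + b • y, x + b • z, y + b • z] s

theorem sv (two : ∀ c : F, c + c = 0) (cube : ∀ c : F, c ≠ 0 → c ^ 3 = 1) (a b d : F)
    (h : a ^ 3 + b ^ 3 + d ^ 3 = 0) (hne : ¬ (a = 0 ∧ b = 0 ∧ d = 0)) :
    ∃ (s : Fin 3) (u t : Fˣ), ∀ x y z : V, a • x + b • y + d • z = (u : F) • tri x y z s (t : F) := by
  have h0 : (0 : F) ^ 3 = 0 := zero_pow (by norm_num)
  by_cases ha : a = 0
  · by_cases hb : b = 0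
    · by_cases hd : d = 0
      · exact absurd ⟨ha, hb, hd⟩ hne
      · rw [ha, hb, h0, cube d hd] at h
        simp at h
    · by_cases hd : d = 0
      · rw [ha, hd, h0, cube b hb] at h
        simp at h
      · refine ⟨2, Units.mk0 b hb, Units.mk0 (d / b) (div_ne_zero hd hb), fun x y z => ?_⟩
        simp only [tri, Units.val_mk0, Matrix.cons_val, smul_add, smul_smul, ha, zero_smul, zero_add]
        rw [mul_div_cancel₀ _ hb]
  · by_cases hb : b = 0
    · by_cases hd : d = 0
      · rw [hb, hd, h0, cube a ha] at h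
        simp at h
      · refine ⟨1, Units.mk0 a ha, Units.mk0 (d / a) (div_ne_zero hd ha), fun x y z => ?_⟩
        simp only [tri, Units.val_mk0, Matrix.cons_val, smul_add, smul_smul, hb, zero_smul, add_zero]
        rw [mul_div_cancel₀ _ ha]
    · by_cases hd : d = 0
      · refine ⟨0, Units.mk0 a ha, Units.mk0 (b / a) (div_ne_zero hb ha), fun x y z => ?_⟩
        simp only [tri, Units.val_mk0, Matrix.cons_val, smul_add, smul_smul, hd, zero_smul, add_zero]
        rw [mul_div_cancel₀ _ ha]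
      · rw [cube a ha, cube b hb, cube d hd, two 1, zero_add] at h
        exact absurd h one_ne_zero

end

theorem hUPP (h1 : StHF) (h2 : StONB) : StUPP := by
  intro F V _ _ _ _ φ hs
  obtain ⟨⟨ω, hω⟩, cube, fadd, fsmul, fsym, fsing, -, -⟩ := h1 φ hs.kind hs.card
  have two : ∀ c : F, c + c = 0 := hω.two
  obtain ⟨e, gr, li, sp⟩ := h2 φ 6 hs.kind hs.card hs.dim
  have : Finite F := hs.finF
  have := Fintype.ofFinite F
  -- coordinates
  have hc : ∀ v : V, v = φ.f (e 0) v • e 0 + φ.f (e 1) v • e 1 + φ.f (e 2) v • e 2 + φ.f (e 3) v • e 3 +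
      φ.f (e 4) v • e 4 + φ.f (e 5) v • e 5 := by
    intro v
    have hv : v ∈ Submodule.span F (Set.range e) := by rw [sp]; trivial
    obtain ⟨a, ha⟩ := (Submodule.mem_span_range_iff_exists_fun F).1 hv
    have hk : ∀ j, φ.f (e j) v = a j := by
      intro j
      rw [← ha, map_sum]
      simp only [map_smul, gr, smul_eq_mul, mul_ite, mul_one, mul_zero]
      rw [Finset.sum_ite_eq]
      simp
    simp only [hk]
    rw [← ha, Fin.sum_univ_six]
  have hf : ∀ x y : V, φ.f x y = (φ.f (e 0) x) ^ 2 * φ.f (e 0) y + (φ.f (e 1) x) ^ 2 * φ.f (e 1) y +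
      (φ.f (e 2) x) ^ 2 * φ.f (e 2) y + (φ.f (e 3) x) ^ 2 * φ.f (e 3) y + (φ.f (e 4) x) ^ 2 * φ.f (e 4) y +
      (φ.f (e 5) x) ^ 2 * φ.f (e 5) y := by
    intro x y
    conv_lhs => rw [hc x]
    simp only [fadd, fsmul]
  have hss : ∀ x : V, φ.Sing x ↔ (φ.f (e 0) x) ^ 3 + (φ.f (e 1) x) ^ 3 + (φ.f (e 2) x) ^ 3 +
      (φ.f (e 3) x) ^ 3 + (φ.f (e 4) x) ^ 3 + (φ.f (e 5) x) ^ 3 = 0 := by
    intro x
    rw [fsing, hf]
    simp only [← pow_succ]
  have cz : (0 : F) ^ 3 = 0 := zero_pow (by norm_num)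
  have cu : ∀ c : Fˣ, (c : F) ^ 3 = 1 := fun c => cube _ c.ne_zero
  obtain ⟨x1, hx1⟩ : ∃ x1 : V, x1 = e 0 + e 1 := ⟨_, rfl⟩
  have g01 : φ.f (e 0) x1 = 1 := by rw [hx1, map_add, gr, gr]; simp
  have g11 : φ.f (e 1) x1 = 1 := by rw [hx1, map_add, gr, gr]; simp
  have g21 : φ.f (e 2) x1 = 0 := by rw [hx1, map_add, gr, gr]; simp
  have g31 : φ.f (e 3) x1 = 0 := by rw [hx1, map_add, gr, gr]; simp
  have g41 : φ.f (e 4) x1 = 0 := by rw [hx1, map_add, gr, gr]; simp
  have g51 : φ.f (e 5) x1 = 0 := by rw [hx1, map_add, gr, gr]; simp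
  have hx1n : x1 ≠ 0 := by
    intro h0
    rw [h0, map_zero] at g01
    exact zero_ne_one g01
  have key : ∀ U, φ.toPolar.Gen U →
      (∃ i ∈ (Finset.univ : Finset (Fin 3 × Fˣ × Fˣ)),
        tri (e 3) (e 4) (e 5) i.1 (i.2.1 : F) + (i.2.2 : F) • x1 ∈ U) ∨
      ∃ i ∈ (Finset.univ : Finset (Fin 3 × Fˣ)).erase (0, 1), tri (e 0) (e 1) (e 2) i.1 (i.2 : F) ∈ U := by
    intro U hU
    have hr := hs.gen U hU
    have hTS := hU.1
    have hsing : ∀ u ∈ U, φ.Sing u := fun u hu => hTS.1 u hu
    have hperp : ∀ u ∈ U, ∀ v ∈ U, φ.f u v = 0 := fun u hu v hv => hTS.2 u hu v hv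
    by_cases hx : x1 ∈ U
    · left
      -- a vector with third coordinate zero
      have hd : 1 < finrank F (U ⊓ LinearMap.ker (φ.f (e 2)) : Submodule F V) := by
        by_cases hle : U ≤ LinearMap.ker (φ.f (e 2))
        · rw [inf_eq_left.2 hle, hr]
          norm_num
        · have := Polar.finrank_inf_ker U (φ.f (e 2)) hle
          omega
      have hnot : ¬ (U ⊓ LinearMap.ker (φ.f (e 2)) : Submodule F V) ≤ Submodule.span F {x1} := by
        intro hle
        have h3 := Submodule.finrank_mono hle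
        have h4 := finrank_span_singleton (K := F) hx1n
        omega
      obtain ⟨u, hu, hux⟩ := SetLike.not_le_iff_exists.1 hnot
      obtain ⟨huU, hu2⟩ := Submodule.mem_inf.1 hu
      rw [LinearMap.mem_ker] at hu2
      have h01 : φ.f (e 0) u + φ.f (e 1) u = 0 := by
        have := hperp _ hx _ huU
        rw [hx1, fadd] at this
        exact this
      have h01' : φ.f (e 1) u = φ.f (e 0) u := by
        have := two (φ.f (e 0) u)
        linear_combination h01 - this
      have hue : u = φ.f (e 0) u • x1 + (φ.f (e 3) u • e 3 + φ.f (e 4) u • e 4 + φ.f (e 5) u • e 5) := by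
        conv_lhs => rw [hc u]
        rw [hu2, h01', hx1]
        module
      have hz : φ.f (e 3) u • e 3 + φ.f (e 4) u • e 4 + φ.f (e 5) u • e 5 ∈ U := by
        have hsub := U.sub_mem huU (U.smul_mem (φ.f (e 0) u) hx)
        have heq : u - φ.f (e 0) u • x1 = φ.f (e 3) u • e 3 + φ.f (e 4) u • e 4 + φ.f (e 5) u • e 5 := by
          rw [sub_eq_iff_eq_add, add_comm]
          exact hue
        rwa [heq] at hsub
      have hcub : φ.f (e 3) u ^ 3 + φ.f (e 4) u ^ 3 + φ.f (e 5) u ^ 3 = 0 := by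
        have h5 := (hss u).1 (hsing u huU)
        rw [h01', hu2, cz, two] at h5
        linear_combination h5
      have hne : ¬ (φ.f (e 3) u = 0 ∧ φ.f (e 4) u = 0 ∧ φ.f (e 5) u = 0) := by
        rintro ⟨h3, h4, h5⟩
        apply hux
        rw [hue, h3, h4, h5, zero_smul, zero_smul, zero_smul, add_zero, add_zero, add_zero]
        exact Submodule.smul_mem _ _ (Submodule.mem_span_singleton_self _)
      obtain ⟨s, a, b, hab⟩ := sv (V := V) two cube _ _ _ hcub hne
      rw [hab] at hz
      have hz' := (Submodule.smul_mem_iff U a.ne_zero).1 hz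
      refine ⟨(s, b, 1), Finset.mem_univ _, ?_⟩
      exact U.add_mem hz' (U.smul_mem _ hx)
    · by_cases hA : ∃ v ∈ U, v ≠ 0 ∧ φ.f (e 3) v = 0 ∧ φ.f (e 4) v = 0 ∧ φ.f (e 5) v = 0
      · right
        obtain ⟨v, hv, hv0, h3, h4, h5⟩ := hA
        have hve : v = φ.f (e 0) v • e 0 + φ.f (e 1) v • e 1 + φ.f (e 2) v • e 2 := by
          conv_lhs => rw [hc v]
          rw [h3, h4, h5]
          module
        have hcub : φ.f (e 0) v ^ 3 + φ.f (e 1) v ^ 3 + φ.f (e 2) v ^ 3 = 0 := by
          have h6 := (hss v).1 (hsing v hv)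
          rw [h3, h4, h5, cz] at h6
          linear_combination h6
        have hne : ¬ (φ.f (e 0) v = 0 ∧ φ.f (e 1) v = 0 ∧ φ.f (e 2) v = 0) := by
          rintro ⟨h6, h7, h8⟩
          apply hv0
          rw [hve, h6, h7, h8]
          simp
        obtain ⟨s, a, b, hab⟩ := sv (V := V) two cube _ _ _ hcub hne
        rw [hve, hab] at hv
        have hz' := (Submodule.smul_mem_iff U a.ne_zero).1 hv
        refine ⟨(s, b), Finset.mem_erase.2 ⟨?_, Finset.mem_univ _⟩, hz'⟩
        intro heq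
        rw [Prod.mk.injEq] at heq
        apply hx
        rw [heq.1, heq.2] at hz'
        simpa [tri, hx1] using hz'
      · left
        push Not at hA
        -- the two projections
        let pA : U →ₗ[F] (Fin 3 → F) := LinearMap.pi ![(φ.f (e 0)).domRestrict U, (φ.f (e 1)).domRestrict U,
          (φ.f (e 2)).domRestrict U]
        let pB : U →ₗ[F] (Fin 3 → F) := LinearMap.pi ![(φ.f (e 3)).domRestrict U, (φ.f (e 4)).domRestrict U,
          (φ.f (e 5)).domRestrict U]
        have hdim : finrank F U = finrank F (Fin 3 → F) := by rw [hr]; simp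
        have hB : Function.Injective pB := by
          rw [← LinearMap.ker_eq_bot, LinearMap.ker_eq_bot']
          intro u hu
          by_contra hne
          have h3 : φ.f (e 3) u = 0 := congrFun hu 0
          have h4 : φ.f (e 4) u = 0 := congrFun hu 1
          have h5 : φ.f (e 5) u = 0 := congrFun hu 2
          exact hA u u.2 (fun h => hne (Subtype.ext h)) h3 h4 h5
        have hBs : Function.Surjective pB := (LinearMap.injective_iff_surjective_of_finrank_eq_finrank hdim).1 hB
        have hAi : Function.Injective pA := by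
          rw [← LinearMap.ker_eq_bot, LinearMap.ker_eq_bot']
          intro u hu
          have h0 : φ.f (e 0) u = 0 := congrFun hu 0
          have h1 : φ.f (e 1) u = 0 := congrFun hu 1
          have h2 : φ.f (e 2) u = 0 := congrFun hu 2
          have hu' : ∀ v : U, φ.f (e 3) u ^ 2 * φ.f (e 3) v + φ.f (e 4) u ^ 2 * φ.f (e 4) v +
              φ.f (e 5) u ^ 2 * φ.f (e 5) v = 0 := by
            intro v
            have h6 := hperp u u.2 v v.2
            rw [hf, h0, h1, h2] at h6
            linear_combination h6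
          have hk : ∀ a : Fin 3 → F, φ.f (e 3) u ^ 2 * a 0 + φ.f (e 4) u ^ 2 * a 1 +
              φ.f (e 5) u ^ 2 * a 2 = 0 := by
            intro a
            obtain ⟨v, hv⟩ := hBs a
            have h3 : φ.f (e 3) v = a 0 := congrFun hv 0
            have h4 : φ.f (e 4) v = a 1 := congrFun hv 1
            have h5 : φ.f (e 5) v = a 2 := congrFun hv 2
            rw [← h3, ← h4, ← h5]
            exact hu' v
          have h3 : φ.f (e 3) u = 0 := by
            have := hk ![1, 0, 0]
            simpa using this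
          have h4 : φ.f (e 4) u = 0 := by
            have := hk ![0, 1, 0]
            simpa using this
          have h5 : φ.f (e 5) u = 0 := by
            have := hk ![0, 0, 1]
            simpa using this
          apply Subtype.ext
          rw [hc u, h0, h1, h2, h3, h4, h5]
          simp
        have hAs : Function.Surjective pA := (LinearMap.injective_iff_surjective_of_finrank_eq_finrank hdim).1 hAi
        obtain ⟨⟨u, huU⟩, hu⟩ := hAs ![1, 1, 0]
        have h0 : φ.f (e 0) u = 1 := congrFun hu 0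
        have h1 : φ.f (e 1) u = 1 := congrFun hu 1
        have h2 : φ.f (e 2) u = 0 := congrFun hu 2
        have hue : u = x1 + (φ.f (e 3) u • e 3 + φ.f (e 4) u • e 4 + φ.f (e 5) u • e 5) := by
          conv_lhs => rw [hc u]
          rw [h0, h1, h2, hx1]
          module
        have hcub : φ.f (e 3) u ^ 3 + φ.f (e 4) u ^ 3 + φ.f (e 5) u ^ 3 = 0 := by
          have h5 := (hss u).1 (hsing u huU)
          rw [h0, h1, h2, cz, one_pow, two] at h5
          linear_combination h5
        have hne : ¬ (φ.f (e 3) u = 0 ∧ φ.f (e 4) u = 0 ∧ φ.f (e 5) u = 0) := by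
          rintro ⟨h3, h4, h5⟩
          apply hx
          rw [hue, h3, h4, h5, zero_smul, zero_smul, zero_smul, add_zero, add_zero, add_zero] at huU
          exact huU
        obtain ⟨s, a, b, hab⟩ := sv (V := V) two cube _ _ _ hcub hne
        refine ⟨(s, b, a⁻¹), Finset.mem_univ _, ?_⟩
        rw [hue, hab] at huU
        have h6 := U.smul_mem ((a⁻¹ : Fˣ) : F) huU
        rw [smul_add, smul_smul, Units.inv_mul, one_smul, add_comm] at h6
        exact h6
  -- the vectors are non-zero and singular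
  have n1 : ∀ i : Fin 3 × Fˣ × Fˣ, tri (e 3) (e 4) (e 5) i.1 (i.2.1 : F) + (i.2.2 : F) • x1 ≠ 0 := by
    rintro ⟨s, b, c⟩ h0
    have h3 := congrArg (φ.f (e 0)) h0
    rw [map_zero, map_add, map_smul, g01, smul_eq_mul, mul_one] at h3
    have h4 : φ.f (e 0) (tri (e 3) (e 4) (e 5) s (b : F)) = 0 := by
      fin_cases s <;> simp [tri, gr]
    rw [h4, zero_add] at h3
    exact c.ne_zero h3
  have n2 : ∀ i : Fin 3 × Fˣ, tri (e 0) (e 1) (e 2) i.1 (i.2 : F) ≠ 0 := by
    rintro ⟨s, b⟩ h0
    have h3 := congrArg (φ.f (e 0)) h0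
    have h4 := congrArg (φ.f (e 1)) h0
    revert h3 h4
    fin_cases s <;> simp [tri, gr]
  have s1 : ∀ i : Fin 3 × Fˣ × Fˣ, φ.toPolar.sing (tri (e 3) (e 4) (e 5) i.1 (i.2.1 : F) + (i.2.2 : F) • x1) := by
    rintro ⟨s, b, c⟩
    refine (hss _).2 ?_
    simp only [map_add, map_smul, g01, g11, g21, g31, g41, g51, smul_eq_mul, mul_one, mul_zero, add_zero]
    have h2 := two (1 : F)
    fin_cases s <;> simp [tri, gr, cu, two]
  have s2 : ∀ i : Fin 3 × Fˣ, φ.toPolar.sing (tri (e 0) (e 1) (e 2) i.1 (i.2 : F)) := by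
    rintro ⟨s, b⟩
    refine (hss _).2 ?_
    fin_cases s <;> simp [tri, gr, cu, two]
  obtain ⟨T, hT, hcard⟩ := blk φ.toPolar (Finset.univ : Finset (Fin 3 × Fˣ × Fˣ))
    ((Finset.univ : Finset (Fin 3 × Fˣ)).erase (0, 1)) _ _ n1 n2 s1 s2 key
  refine ⟨T, hT, hcard.trans ?_⟩
  have hF : Fintype.card F = 4 := by rw [← Nat.card_eq_fintype_card, hs.card]
  have hFu : Fintype.card Fˣ = 3 := by rw [Fintype.card_units, hF]
  rw [Finset.card_erase_of_mem (Finset.mem_univ _), Finset.card_univ, Finset.card_univ, Fintype.card_prod,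
    Fintype.card_prod, Fintype.card_prod, hFu, Fintype.card_fin]

end Pool.Agent.Helper33.U4
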